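import Pool.Agent.H11.Sum1

open H11.Sum Filter

theorem Pool.Agent.Results.MP_870dc7_co.Disproof.result :
    (∀ H : ℕ → ℕ, (∀ K, ∃ᶠ N in atTop, K * H N < N) → ∀ χ : ℕ → Bool,
      ∃ (B C : Set ℕ) (i : Bool), 0 ∉ B ∧ 0 ∉ C ∧ B.Infinite ∧ C.Infinite ∧
        (∀ b ∈ B, ∀ c ∈ C, χ (b + c) = i) ∧
        (∃ᶠ N in atTop, H N ≤ cnt B N) ∧ ∃ᶠ N in atTop, H N ≤ cnt C N) ∧
    ∃ H : ℕ → ℕ, (∀ N, 1 ≤ N → 1 ≤ H N) ∧ Monotone H ∧ Tendsto H atTop atTop ∧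
      ∀ χ : ℕ → Bool, ∃ (B C : Set ℕ) (i : Bool), 0 ∉ B ∧ 0 ∉ C ∧ B.Infinite ∧ C.Infinite ∧
        (∀ b ∈ B, ∀ c ∈ C, χ (b + c) = i) ∧ ∃ᶠ N in atTop, H N ≤ max (cnt B N) (cnt C N) := by
  refine ⟨main, Nat.sqrt, fun N hN => Nat.sqrt_pos.mpr hN, fun a b h => Nat.sqrt_le_sqrt h, ?_,
    fun χ => ?_⟩
  · exact tendsto_atTop_atTop.mpr fun b => ⟨b * b, fun a ha => Nat.le_sqrt.mpr ha⟩
  · obtain ⟨B, C, i, h1, h2, h3, h4, h5, h6, -⟩ := main Nat.sqrt (fun K => by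
      rw [frequently_atTop]
      intro a
      refine ⟨(K + a + 1) * (K + a + 1), by nlinarith, ?_⟩
      rw [Nat.sqrt_eq]
      nlinarith) χ
    exact ⟨B, C, i, h1, h2, h3, h4, h5, h6.mono fun N hN => hN.trans (le_max_left _ _)⟩
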